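import Pool.Agent.Helper940.GrigIrr

/-!
# A transcendental element of the group algebra of the Grigorchuk group

The Schreier graph of the level `n` is a path; `pos` is the position on it.
-/

set_option autoImplicit false

namespace Pool.Agent.H2GU

open Pool.Agent.Helper940.GrigIrr

/-- the position on the path: the number with the Gray code given by the word -/
def pos : List Bool → ℕ
  | [] => 0
  | x :: w => 2 * pos w + (pos w + (if x then 0 else 1)) % 2

theorem pos_true (w : List Bool) : pos (true :: w) = 2 * pos w + pos w % 2 := by
  simp [pos]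

theorem pos_false (w : List Bool) : pos (false :: w) = 2 * pos w + (pos w + 1) % 2 := by
  simp [pos]

theorem pos_lt (w : List Bool) : pos w < 2 ^ w.length := by
  induction w with
  | nil => simp [pos]
  | cons x w ih =>
    rw [List.length_cons, pow_succ]
    cases x
    · rw [pos_false]; omega
    · rw [pos_true]; omega

theorem pos_inj : ∀ {w v : List Bool}, w.length = v.length → pos w = pos v → w = v := by
  intro w
  induction w with
  | nil =>
    intro v h _
    exact (List.length_eq_zero_iff.1 h.symm).symm
  | cons x w ih =>
    intro v h hp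
    cases v with
    | nil => simp at h
    | cons y v =>
      have hl : w.length = v.length := by simpa using h
      have key : pos w = pos v ∧ x = y := by
        cases x <;> cases y
        · rw [pos_false, pos_false] at hp; exact ⟨by omega, rfl⟩
        · rw [pos_false, pos_true] at hp; omega
        · rw [pos_true, pos_false] at hp; omega
        · rw [pos_true, pos_true] at hp; exact ⟨by omega, rfl⟩
      rw [ih hl key.1, key.2]

theorem exists_pos (n : ℕ) : ∀ N < 2 ^ n, ∃ w : List Bool, w.length = n ∧ pos w = N := by
  induction n with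
  | zero =>
    intro N hN
    exact ⟨[], rfl, by simp [pos]; omega⟩
  | succ n ih =>
    intro N hN
    rw [pow_succ] at hN
    obtain ⟨w, h1, h2⟩ := ih (N / 2) (by omega)
    by_cases h : N % 2 = (N / 2) % 2
    · refine ⟨true :: w, by simp [h1], ?_⟩
      rw [pos_true, h2]; omega
    · refine ⟨false :: w, by simp [h1], ?_⟩
      rw [pos_false, h2]; omega

/-- the neighbour along the edge of `a` -/
def s1 (N : ℕ) : ℕ := if N % 2 = 0 then N + 1 else N - 1

/-- the neighbour along the other edge -/
def s2 (N : ℕ) : ℕ := if N % 2 = 1 then N + 1 else N - 1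

theorem pos_a {w : List Bool} (h : w ≠ []) : pos (a w) = s1 (pos w) := by
  cases w with
  | nil => exact absurd rfl h
  | cons x w =>
    rw [a_apply]
    unfold s1
    cases x
    · show pos (true :: w) = _
      rw [pos_true, pos_false]
      split_ifs <;> omega
    · show pos (false :: w) = _
      rw [pos_true, pos_false]
      split_ifs <;> omega

theorem len_a (w : List Bool) : (a w).length = w.length := by
  cases w <;> rfl

/-- the word is not an end of the path -/
def Mid (w : List Bool) : Prop := pos w ≠ 0 ∧ pos w + 1 ≠ 2 ^ w.length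

theorem bcd_end (w : List Bool) (h : ¬ Mid w) : b w = w ∧ c w = w ∧ d w = w := by
  induction w with
  | nil => exact ⟨rfl, rfl, rfl⟩
  | cons x w ih =>
    have hlt := pos_lt w
    cases x
    · have hw : w = [] := by
        by_contra hne
        have hl : 0 < w.length := List.length_pos_iff.2 hne
        obtain ⟨m, hm⟩ : ∃ m, w.length = m + 1 := ⟨w.length - 1, by omega⟩
        apply h
        unfold Mid
        rw [pos_false, List.length_cons, pow_succ, hm, pow_succ]
        rw [hm, pow_succ] at hlt
        constructor <;> omega
      subst hw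
      exact ⟨rfl, rfl, rfl⟩
    · have hw : ¬ Mid w := by
        intro hM
        apply h
        unfold Mid at hM ⊢
        rw [pos_true, List.length_cons, pow_succ]
        obtain ⟨h1, h2⟩ := hM
        constructor <;> omega
      obtain ⟨h1, h2, h3⟩ := ih hw
      exact ⟨congrArg (List.cons true) h2, congrArg (List.cons true) h3,
        congrArg (List.cons true) h1⟩

theorem bcd_mid (w : List Bool) (h : Mid w) : ∃ w' : List Bool, pos w' = s2 (pos w) ∧
    w'.length = w.length ∧
    ((b w = w' ∧ c w = w' ∧ d w = w) ∨ (b w = w' ∧ c w = w ∧ d w = w') ∨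
      (b w = w ∧ c w = w' ∧ d w = w')) := by
  induction w with
  | nil => exact absurd rfl h.1
  | cons x w ih =>
    cases x
    · have hw : w ≠ [] := by
        rintro rfl
        exact h.2 rfl
      refine ⟨false :: a w, ?_, by simp [len_a], Or.inl ⟨rfl, rfl, rfl⟩⟩
      rw [pos_false, pos_false, pos_a hw]
      unfold s1 s2
      split_ifs <;> omega
    · have hM : Mid w := by
        unfold Mid at h ⊢
        rw [pos_true, List.length_cons, pow_succ] at h
        obtain ⟨h1, h2⟩ := h
        have hlt := pos_lt w
        refine ⟨by omega, fun h3 => ?_⟩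
        rcases Nat.even_or_odd (pos w) with he | ho
        · obtain ⟨r, hr⟩ := he
          rcases Nat.eq_zero_or_pos w.length with h0 | h0
          · rw [h0, pow_zero] at h3
            omega
          · obtain ⟨m, hm⟩ : ∃ m, w.length = m + 1 := ⟨w.length - 1, by omega⟩
            rw [hm, pow_succ] at h3
            omega
        · obtain ⟨r, hr⟩ := ho
          omega
      obtain ⟨w', h1, h2, h3⟩ := ih hM
      refine ⟨true :: w', ?_, by simp [h2], ?_⟩
      · rw [pos_true, pos_true, h1]
        have := hM.1
        unfold s2
        split_ifs <;> omega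
      · rcases h3 with ⟨e1, e2, e3⟩ | ⟨e1, e2, e3⟩ | ⟨e1, e2, e3⟩
        · exact Or.inr (Or.inl ⟨congrArg (List.cons true) e2, congrArg (List.cons true) e3,
            congrArg (List.cons true) e1⟩)
        · exact Or.inr (Or.inr ⟨congrArg (List.cons true) e2, congrArg (List.cons true) e3,
            congrArg (List.cons true) e1⟩)
        · exact Or.inl ⟨congrArg (List.cons true) e2, congrArg (List.cons true) e3,
            congrArg (List.cons true) e1⟩

/-! ## The operator -/

variable {k : Type} [Field k]

/-- the element `2 a + b + c + d - 1` -/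
noncomputable def tau (k : Type) [Field k] : MonoidAlgebra k G :=
  MonoidAlgebra.single ga 2 + MonoidAlgebra.single gb 1 + MonoidAlgebra.single gc 1 +
    MonoidAlgebra.single gd 1 + MonoidAlgebra.single 1 (-1)

/-- the action of this element -/
def Tm (f : List Bool → k) (w : List Bool) : k :=
  2 * f (a w) + f (b w) + f (c w) + f (d w) - f w

theorem Rho_tau (f : List Bool → k) : Rho k (tau k) f = Tm f := by
  funext w
  simp only [Rho, tau, map_add, MonoidAlgebra.lift_single, LinearMap.add_apply,
    LinearMap.smul_apply, Pi.add_apply, Pi.smul_apply, rho_apply, smul_eq_mul, ga_inv, gb_inv,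
    gc_inv, gd_inv, Tm, inv_one]
  show 2 * f (a w) + 1 * f (b w) + 1 * f (c w) + 1 * f (d w) + (-1) * f w = _
  ring

/-- the top position of the function on level `n` is `j` -/
def Top (n j : ℕ) (f : List Bool → k) : Prop :=
  (∀ w : List Bool, w.length = n → j < pos w → f w = 0) ∧
    ∀ w : List Bool, w.length = n → pos w = j → f w ≠ 0

theorem top_step (h2 : (2 : k) ≠ 0) {n j : ℕ} (hn : j + 1 < 2 ^ n) {f : List Bool → k}
    (h : Top n j f) : Top n (j + 1) (Tm f) := by
  obtain ⟨z, nz⟩ := h
  have hn0 : 0 < n := by
    rcases Nat.eq_zero_or_pos n with h0 | h0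
    · subst h0; simp at hn
    · exact h0
  have pw : ∃ m, n = m + 1 := ⟨n - 1, by omega⟩
  obtain ⟨m, rfl⟩ := pw
  have hne : ∀ w : List Bool, w.length = m + 1 → w ≠ [] := by
    rintro w hw rfl
    simp at hw
  have ha : ∀ w : List Bool, w.length = m + 1 → (a w).length = m + 1 := fun w hw => by
    rw [len_a, hw]
  -- the values of the other generators
  have hb : ∀ w : List Bool, w.length = m + 1 → Mid w → ∃ w' : List Bool,
      pos w' = s2 (pos w) ∧ w'.length = m + 1 ∧ f (b w) + f (c w) + f (d w) = 2 * f w' + f w := by
    intro w hw hM
    obtain ⟨w', h1, h2, h3⟩ := bcd_mid w hM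
    refine ⟨w', h1, h2.trans hw, ?_⟩
    rcases h3 with ⟨e1, e2, e3⟩ | ⟨e1, e2, e3⟩ | ⟨e1, e2, e3⟩ <;> rw [e1, e2, e3] <;> ring
  constructor
  · intro w hw hj
    have hfw : f w = 0 := z w hw (by omega)
    have hfa : f (a w) = 0 := by
      refine z (a w) (ha w hw) ?_
      rw [pos_a (hne w hw)]
      unfold s1
      split_ifs <;> omega
    by_cases hM : Mid w
    · obtain ⟨w', h1, h2, h3⟩ := hb w hw hM
      have hf' : f w' = 0 := by
        refine z w' h2 ?_
        rw [h1]
        unfold s2
        split_ifs <;> omega
      unfold Tm
      linear_combination 2 * hfa + h3 + 2 * hf'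
    · obtain ⟨e1, e2, e3⟩ := bcd_end w hM
      unfold Tm
      rw [e1, e2, e3, hfw, hfa]
      ring
  · intro w hw hj
    have hfw : f w = 0 := z w hw (by omega)
    rcases Nat.mod_two_eq_zero_or_one j with hp | hp
    · -- the edge of `a`
      have hfa : f (a w) ≠ 0 := by
        refine nz (a w) (ha w hw) ?_
        rw [pos_a (hne w hw), hj]
        unfold s1
        split_ifs <;> omega
      have hrest : f (b w) + f (c w) + f (d w) = 0 := by
        by_cases hM : Mid w
        · obtain ⟨w', h1, h2, h3⟩ := hb w hw hM
          have hf' : f w' = 0 := by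
            refine z w' h2 ?_
            rw [h1, hj]
            unfold s2
            split_ifs <;> omega
          rw [h3, hf', hfw]; ring
        · obtain ⟨e1, e2, e3⟩ := bcd_end w hM
          rw [e1, e2, e3, hfw]
          ring
      have : Tm f w = 2 * f (a w) := by
        unfold Tm
        linear_combination hrest - hfw
      rw [this]
      exact mul_ne_zero h2 hfa
    · have hfa : f (a w) = 0 := by
        refine z (a w) (ha w hw) ?_
        rw [pos_a (hne w hw), hj]
        unfold s1
        split_ifs <;> omega
      have hM : Mid w := by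
        unfold Mid
        rw [hj, hw, pow_succ]
        constructor <;> omega
      obtain ⟨w', h1, h2', h3⟩ := hb w hw hM
      have hf' : f w' ≠ 0 := by
        refine nz w' h2' ?_
        rw [h1, hj]
        unfold s2
        split_ifs <;> omega
      have : Tm f w = 2 * f w' := by
        unfold Tm
        linear_combination 2 * hfa + h3
      rw [this]
      exact mul_ne_zero h2 hf'

/-- the starting function -/
def f0 (k : Type) [Field k] (w : List Bool) : k := if pos w = 0 then 1 else 0

theorem top_pow (h2 : (2 : k) ≠ 0) (n : ℕ) : ∀ j < 2 ^ n, Top n j (((Rho k (tau k)) ^ j) (f0 k)) := by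
  intro j
  induction j with
  | zero =>
    intro _
    constructor
    · intro w _ hw
      show f0 k w = 0
      unfold f0
      rw [if_neg (by omega)]
    · intro w _ hw
      show f0 k w ≠ 0
      unfold f0
      rw [if_pos hw]
      exact one_ne_zero
  | succ j ih =>
    intro hj
    have := top_step h2 hj (ih (by omega))
    rw [pow_succ', Module.End.mul_apply, Rho_tau]
    exact this

/-- the element is transcendental over the field -/
theorem tau_transcendental (h2 : (2 : k) ≠ 0) : Transcendental k (tau k) := by
  rw [transcendental_iff]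
  intro q hq
  by_contra hq0
  have h3 : Polynomial.aeval (Rho k (tau k)) q = 0 := by
    rw [← map_zero (Rho k), ← hq, Polynomial.aeval_algHom_apply]
  set m := q.natDegree with hm
  have hlt : m < 2 ^ m := Nat.lt_two_pow_self
  obtain ⟨w, hw1, hw2⟩ := exists_pos m m hlt
  have h4 : (Polynomial.aeval (Rho k (tau k)) q) (f0 k) w = 0 := by rw [h3]; rfl
  rw [Polynomial.aeval_eq_sum_range, LinearMap.sum_apply, Finset.sum_apply,
    Finset.sum_range_succ, ← hm] at h4
  have h5 : ∑ i ∈ Finset.range m, (q.coeff i • (Rho k (tau k)) ^ i) (f0 k) w = 0 := by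
    refine Finset.sum_eq_zero fun i hi => ?_
    rw [Finset.mem_range] at hi
    rw [LinearMap.smul_apply, Pi.smul_apply, (top_pow h2 m i (by omega)).1 w hw1 (by omega), smul_zero]
  rw [h5, zero_add, LinearMap.smul_apply, Pi.smul_apply, smul_eq_mul] at h4
  rcases mul_eq_zero.1 h4 with h6 | h6
  · exact hq0 (Polynomial.leadingCoeff_eq_zero.1 h6)
  · exact (top_pow h2 m m hlt).2 w hw1 hw2 h6

end Pool.Agent.H2GU
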