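import Pool.Agent.H2GU.Grig

/-!
# A unit of the group algebra of the Grigorchuk group which is not algebraic
-/

set_option autoImplicit false

namespace Pool.Agent.H2GU

open Pool.Agent.Helper940.GrigIrr Polynomial

section ring

variable {R : Type} [Ring R]

/-- The two nilpotent elements. -/
def al (a s : R) : R := (1 + a) * s * (1 - a)
def be (a s : R) : R := (1 - a) * s * (1 + a)

theorem al_sq {a s : R} (ha : a * a = 1) : al a s * al a s = 0 := by
  have h : (1 - a) * (1 + a) = 0 := by
    have : (1 - a) * (1 + a) = 1 - a * a := by noncomm_ring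
    rw [this, ha, sub_self]
  calc al a s * al a s = (1 + a) * s * ((1 - a) * (1 + a)) * s * (1 - a) := by
        unfold al; noncomm_ring
    _ = 0 := by rw [h]; simp

theorem be_sq {a s : R} (ha : a * a = 1) : be a s * be a s = 0 := by
  have h : (1 + a) * (1 - a) = 0 := by
    have : (1 + a) * (1 - a) = 1 - a * a := by noncomm_ring
    rw [this, ha, sub_self]
  calc be a s * be a s = (1 - a) * s * ((1 + a) * (1 - a)) * s * (1 + a) := by
        unfold be; noncomm_ring
    _ = 0 := by rw [h]; simp

/-- The unit `(1 + α) (1 + β)`. -/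
def un {a : R} (s : R) (ha : a * a = 1) : Rˣ where
  val := (1 + al a s) * (1 + be a s)
  inv := (1 - be a s) * (1 - al a s)
  val_inv := by
    have h1 : (1 + be a s) * (1 - be a s) = 1 := by
      have : (1 + be a s) * (1 - be a s) = 1 - be a s * be a s := by noncomm_ring
      rw [this, be_sq ha, sub_zero]
    have h2 : (1 + al a s) * (1 - al a s) = 1 := by
      have : (1 + al a s) * (1 - al a s) = 1 - al a s * al a s := by noncomm_ring
      rw [this, al_sq ha, sub_zero]
    calc (1 + al a s) * (1 + be a s) * ((1 - be a s) * (1 - al a s))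
        = (1 + al a s) * ((1 + be a s) * (1 - be a s)) * (1 - al a s) := by
          simp only [mul_assoc]
      _ = 1 := by rw [h1, mul_one, h2]
  inv_val := by
    have h1 : (1 - be a s) * (1 + be a s) = 1 := by
      have : (1 - be a s) * (1 + be a s) = 1 - be a s * be a s := by noncomm_ring
      rw [this, be_sq ha, sub_zero]
    have h2 : (1 - al a s) * (1 + al a s) = 1 := by
      have : (1 - al a s) * (1 + al a s) = 1 - al a s * al a s := by noncomm_ring
      rw [this, al_sq ha, sub_zero]
    calc (1 - be a s) * (1 - al a s) * ((1 + al a s) * (1 + be a s))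
        = (1 - be a s) * ((1 - al a s) * (1 + al a s)) * (1 + be a s) := by
          simp only [mul_assoc]
      _ = 1 := by rw [h2, mul_one, h1]

theorem un_add_inv {a : R} (s : R) (ha : a * a = 1) :
    ((un s ha : Rˣ) : R) + ((un s ha)⁻¹ : Rˣ) = 1 + 1 + (al a s * be a s + be a s * al a s) := by
  show (1 + al a s) * (1 + be a s) + (1 - be a s) * (1 - al a s) = _
  noncomm_ring

theorem key_id {a s : R} (ha : a * a = 1) (hs : s * s = 4 • s) :
    al a s * be a s + be a s * al a s =
      16 • (2 • a + s - 2 • 1) ^ 2 - (2 • a + s - 2 • 1) ^ 4 := by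
  have e1 : (2 • a + s - 2 • 1) ^ 2 = 8 • 1 - 8 • a + 2 • (a * s) + 2 • (s * a) := by
    have : (2 • a + s - 2 • 1) ^ 2 =
        4 • (a * a) + 2 • (a * s) + 2 • (s * a) + s * s - 8 • a - 4 • s + 4 • 1 := by
      rw [pow_two]; noncomm_ring
    rw [this, ha, hs]
    noncomm_ring
  have e2 : (2 • a + s - 2 • 1) ^ 4 = (8 • 1 - 8 • a + 2 • (a * s) + 2 • (s * a)) *
      (8 • 1 - 8 • a + 2 • (a * s) + 2 • (s * a)) := by
    rw [← e1, ← pow_two, ← pow_mul]
  rw [e2, e1]
  unfold al be
  have e3 : (1 + a) * s * (1 - a) * ((1 - a) * s * (1 + a)) +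
      (1 - a) * s * (1 + a) * ((1 + a) * s * (1 - a)) =
      16 • (s + a * s * a) - 4 • (a * s * a * s + s * a * s * a) := by
    have p1 : (1 - a) * (1 - a) = 2 • 1 - 2 • a := by
      have : (1 - a) * (1 - a) = 1 - 2 • a + a * a := by noncomm_ring
      rw [this, ha]; noncomm_ring
    have p2 : (1 + a) * (1 + a) = 2 • 1 + 2 • a := by
      have : (1 + a) * (1 + a) = 1 + 2 • a + a * a := by noncomm_ring
      rw [this, ha]; abel
    have q1 : (1 + a) * s * (1 - a) * ((1 - a) * s * (1 + a)) =
        (1 + a) * (2 • (s * s) - 2 • (s * a * s)) * (1 + a) := by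
      have : (1 + a) * s * (1 - a) * ((1 - a) * s * (1 + a)) =
          (1 + a) * s * ((1 - a) * (1 - a)) * s * (1 + a) := by simp only [mul_assoc]
      rw [this, p1]; noncomm_ring
    have q2 : (1 - a) * s * (1 + a) * ((1 + a) * s * (1 - a)) =
        (1 - a) * (2 • (s * s) + 2 • (s * a * s)) * (1 - a) := by
      have : (1 - a) * s * (1 + a) * ((1 + a) * s * (1 - a)) =
          (1 - a) * s * ((1 + a) * (1 + a)) * s * (1 - a) := by simp only [mul_assoc]
      rw [this, p2]; noncomm_ring
    rw [q1, q2, hs]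
    noncomm_ring
  have e4 : (8 • 1 - 8 • a + 2 • (a * s) + 2 • (s * a)) *
      (8 • 1 - 8 • a + 2 • (a * s) + 2 • (s * a)) =
      16 • (8 • 1 - 8 • a + 2 • (a * s) + 2 • (s * a)) -
        (16 • (s + a * s * a) - 4 • (a * s * a * s + s * a * s * a)) := by
    have : (8 • (1 : R) - 8 • a + 2 • (a * s) + 2 • (s * a)) *
        (8 • 1 - 8 • a + 2 • (a * s) + 2 • (s * a)) =
        64 • 1 - 128 • a + 64 • (a * a) + 32 • (a * s) + 32 • (s * a) - 16 • ((a * a) * s)
          - 16 • (a * s * a) - 16 • (a * s * a) - 16 • (s * (a * a))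
          + 4 • (a * s * a * s) + 4 • (a * (s * s) * a) + 4 • (s * (a * a) * s)
          + 4 • (s * a * s * a) := by noncomm_ring
    rw [this, ha]
    rw [mul_one s, hs]
    noncomm_ring
  rw [e3, e4]
  noncomm_ring

end ring

section alg

variable {k : Type} [Field k]

/-- An algebraic unit has its inverse in the subalgebra which it generates. -/
theorem inv_mem_adjoin {A : Type} [Ring A] [Algebra k A] (u : Aˣ) (h : IsAlgebraic k (u : A)) :
    ((u⁻¹ : Aˣ) : A) ∈ Algebra.adjoin k {(u : A)} ∧
      Module.Finite k (Algebra.adjoin k {(u : A)}) := by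
  have hfg : (Subalgebra.toSubmodule (Algebra.adjoin k {(u : A)})).FG :=
    h.isIntegral.fg_adjoin_singleton
  have hfin : Module.Finite k (Algebra.adjoin k {(u : A)}) :=
    Module.Finite.iff_fg.2 hfg
  refine ⟨?_, hfin⟩
  set S := Algebra.adjoin k {(u : A)} with hS
  have hu : (u : A) ∈ S := Algebra.subset_adjoin rfl
  let L : S →ₗ[k] S := LinearMap.mulLeft k (⟨u, hu⟩ : S)
  have hinj : Function.Injective L := by
    intro x y hxy
    have : (u : A) * x = u * y := congrArg Subtype.val hxy
    exact Subtype.ext ((Units.mul_right_inj u).1 this)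
  obtain ⟨v, hv⟩ := (LinearMap.injective_iff_surjective.1 hinj) 1
  have h1 : (u : A) * v = 1 := congrArg Subtype.val hv
  have h2 : ((u⁻¹ : Aˣ) : A) = v := by
    rw [← mul_one ((u⁻¹ : Aˣ) : A), ← h1, ← mul_assoc, Units.inv_mul, one_mul]
  rw [h2]
  exact v.2

/-- If the unit is algebraic then so is the polynomial in `t`. -/
theorem not_alg {A : Type} [Ring A] [Algebra k A] (u : Aˣ) (t : A) (ht : Transcendental k t)
    (hu : (u : A) + ((u⁻¹ : Aˣ) : A) = 1 + 1 + (16 • t ^ 2 - t ^ 4)) :
    ¬ IsAlgebraic k (u : A) := by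
  intro h
  obtain ⟨h1, h2⟩ := inv_mem_adjoin u h
  set S := Algebra.adjoin k {(u : A)} with hS
  have hu' : (u : A) ∈ S := Algebra.subset_adjoin rfl
  have hz : (16 • t ^ 2 - t ^ 4) ∈ S := by
    have : 16 • t ^ 2 - t ^ 4 = (u : A) + ((u⁻¹ : Aˣ) : A) - 1 - 1 := by rw [hu]; abel
    rw [this]
    exact S.sub_mem (S.sub_mem (S.add_mem hu' h1) S.one_mem) S.one_mem
  have hint : IsIntegral k (⟨16 • t ^ 2 - t ^ 4, hz⟩ : S) := Algebra.IsIntegral.isIntegral _
  have hint' : IsIntegral k (16 • t ^ 2 - t ^ 4) := hint.map S.val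
  obtain ⟨q, hq0, hq⟩ := hint'.isAlgebraic
  set r : k[X] := 16 • X ^ 2 - X ^ 4 with hr
  have hrt : aeval t r = 16 • t ^ 2 - t ^ 4 := by
    rw [hr, map_sub, map_nsmul, map_pow, map_pow, aeval_X]
  have hcomp : aeval t (q.comp r) = 0 := by
    rw [aeval_comp, hrt]; exact hq
  have hne : q.comp r ≠ 0 := by
    rw [Ne, comp_eq_zero_iff]
    rintro (h3 | ⟨_, h3⟩)
    · exact hq0 h3
    · have : r.coeff 4 = -1 := by
        rw [hr, coeff_sub, coeff_smul, coeff_X_pow, coeff_X_pow]
        norm_num
      rw [h3, coeff_C] at this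
      norm_num at this
  exact hne ((transcendental_iff.1 ht) _ hcomp)

/-- the element `a` of the group algebra -/
noncomputable def ea (k : Type) [Field k] : MonoidAlgebra k G := MonoidAlgebra.single ga 1
/-- the sum of the four-group -/
noncomputable def es (k : Type) [Field k] : MonoidAlgebra k G :=
  MonoidAlgebra.single 1 1 + MonoidAlgebra.single gb 1 + MonoidAlgebra.single gc 1 +
    MonoidAlgebra.single gd 1

theorem ea_sq : ea k * ea k = 1 := by
  unfold ea
  rw [MonoidAlgebra.single_mul_single, one_mul]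
  have : ga * ga = 1 := Subtype.ext aa
  rw [this]; rfl

theorem es_sq : es k * es k = 4 • es k := by
  have hbb : gb * gb = 1 := Subtype.ext bb
  have hcc : gc * gc = 1 := Subtype.ext cc
  have hdd : gd * gd = 1 := Subtype.ext dd
  have hbc : gb * gc = gd := Subtype.ext bc_eq
  have hcb : gc * gb = gd := Subtype.ext cb_eq
  have hcd : gc * gd = gb := Subtype.ext cd_eq
  have hdc : gd * gc = gb := Subtype.ext dc_eq
  have hbd : gb * gd = gc := Subtype.ext bd_eq
  have hdb : gd * gb = gc := Subtype.ext db_eq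
  unfold es
  simp only [add_mul, mul_add, MonoidAlgebra.single_mul_single, one_mul, mul_one, hbb, hcc, hdd, hbc,
    hcb, hcd, hdc, hbd, hdb]
  abel

theorem tau_eq : 2 • ea k + es k - 2 • 1 = tau k := by
  unfold ea es tau
  have h1 : (1 : MonoidAlgebra k G) = MonoidAlgebra.single 1 1 := rfl
  have h2 : MonoidAlgebra.single ga (2 : k) = 2 • MonoidAlgebra.single ga (1 : k) := by
    rw [two_nsmul, ← MonoidAlgebra.single_add]; norm_num
  have h3 : MonoidAlgebra.single (1 : G) (-1 : k) = - MonoidAlgebra.single (1 : G) (1 : k) := by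
    rw [← MonoidAlgebra.single_neg]
  rw [h1, h2, h3]
  abel

/-- The group algebra of the Grigorchuk group over a field of characteristic different from two has
a unit which is not algebraic. -/
theorem exists_unit (h2 : (2 : k) ≠ 0) :
    ∃ u : (MonoidAlgebra k G)ˣ, ¬ IsAlgebraic k (u : MonoidAlgebra k G) := by
  refine ⟨un (es k) ea_sq, not_alg _ (tau k) (tau_transcendental h2) ?_⟩
  rw [un_add_inv, key_id ea_sq es_sq, tau_eq]

end alg

end Pool.Agent.H2GU
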